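import Pool.Agent.Lib.MP_1e748d_nt.Vb.Ram
import Pool.Agent.Lib.MP_1e748d_nt.Va.Blk

/-! Transfer of the hypothesis from the extension `M / K` to the splitting field. -/

set_option autoImplicit false

namespace Pool.Agent.Lib.MP_1e748d_nt.Vb

open Polynomial Pool.Agent.Lib.MP_1e748d_nt.Va NumberField Pointwise

lemma rel_map {G G' : Type} [Group G] [Group G'] (f : G →* G') {H S : Subgroup G}
    (h : H.relIndex S ≠ 0) : (H.map f).relIndex (S.map f) ≤ H.relIndex S := by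
  rw [← Subgroup.relIndex_comap]
  exact Subgroup.relIndex_le_of_le_left (Subgroup.le_comap_map f H) h

/-- Decomposition groups surject in a tower. -/
lemma dec_surj (L Ω : Type) [Field L] [NumberField L] [Normal ℚ L] [Field Ω] [Algebra ℚ Ω]
    [IsGalois ℚ Ω] [Algebra L Ω] [IsScalarTower ℚ L Ω] (Q : Ideal (𝓞 Ω)) [Q.IsPrime] :
    MulAction.stabilizer (L ≃ₐ[ℚ] L) (Q.under (𝓞 L)) ≤
      (MulAction.stabilizer (Ω ≃ₐ[ℚ] Ω) Q).map (AlgEquiv.restrictNormalHom L) := by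
  intro g hg
  obtain ⟨g1, rfl⟩ := AlgEquiv.restrictNormalHom_surjective (K₁ := L) Ω g
  have : IsGalois L Ω := IsGalois.tower_top_of_isGalois ℚ L Ω
  let : TopologicalSpace (𝓞 Ω) := ⊥
  have : DiscreteTopology (𝓞 Ω) := ⟨rfl⟩
  have : ContinuousSMul (Ω ≃ₐ[L] Ω) (𝓞 Ω) := continuousSMul_iff_stabilizer_isOpen.2 fun x => by
    convert stabilizer_isOpen_of_isIntegral (K := L) (x : Ω) using 2
    ext σ
    exact RingOfIntegers.ext_iff
  have : SMulCommClass (Ω ≃ₐ[L] Ω) (𝓞 L) (𝓞 Ω) := ⟨fun σ a x => RingOfIntegers.ext (by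
    rw [Algebra.smul_def, Algebra.smul_def]
    exact (map_mul σ _ _).trans (congrArg (· * σ x) (σ.commutes a)))⟩
  have : Algebra.IsInvariant (𝓞 L) (𝓞 Ω) (Ω ≃ₐ[L] Ω) := ⟨fun x hx => by
    obtain ⟨y, hy⟩ := (InfiniteGalois.mem_bot_iff_fixed (k := L) (x : Ω)).2
      fun σ => congrArg (algebraMap (𝓞 Ω) Ω) (hx σ)
    have hy' : algebraMap L Ω y = x := hy
    refine ⟨⟨y, ?_⟩, RingOfIntegers.ext hy'⟩
    exact (isIntegral_algHom_iff (algebraMap L Ω).toIntAlgHom (algebraMap L Ω).injective).mp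
      (hy'.symm ▸ x.2 : IsIntegral ℤ (algebraMap L Ω y))⟩
  have hc : ∀ (σ : Ω ≃ₐ[ℚ] Ω) (x : 𝓞 L), algebraMap (𝓞 L) (𝓞 Ω)
      (AlgEquiv.restrictNormalHom L σ • x) = σ • algebraMap (𝓞 L) (𝓞 Ω) x :=
    fun σ x => RingOfIntegers.ext (σ.restrictNormal_commutes L x)
  obtain ⟨n, hn⟩ := Algebra.IsInvariant.exists_smul_of_under_eq_of_profinite (A := 𝓞 L)
    (G := Ω ≃ₐ[L] Ω) (g1 • Q) Q (by
      ext x
      rw [Ideal.mem_comap, Ideal.mem_pointwise_smul_iff_inv_smul_mem, ← hc, map_inv,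
        ← Ideal.mem_comap]
      exact mem_stab.1 (inv_mem hg) x)
  refine ⟨n.restrictScalars ℚ * g1, ?_, ?_⟩
  · rw [SetLike.mem_coe, MulAction.mem_stabilizer_iff, mul_smul]
    exact hn.symm
  · rw [map_mul, mul_eq_right]
    ext x
    exact (algebraMap L Ω).injective
      (((n.restrictScalars ℚ).restrictNormal_commutes L x).trans (n.commutes x))

lemma idx_range (K Ω : Type) [Field K] [Algebra ℚ K] [FiniteDimensional ℚ K] [Field Ω] [Algebra ℚ Ω]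
    [IsGalois ℚ Ω] [Algebra K Ω] [IsScalarTower ℚ K Ω] :
    (AlgEquiv.restrictScalarsHom ℚ : (Ω ≃ₐ[K] Ω) →* (Ω ≃ₐ[ℚ] Ω)).range.index ∣
      Module.finrank ℚ K := by
  rw [(AlgEquiv.ofInjectiveField (IsScalarTower.toAlgHom ℚ K Ω)).toLinearEquiv.finrank_eq]
  have h := IntermediateField.finrank_eq_fixingSubgroup_index Ω
    (IsScalarTower.toAlgHom ℚ K Ω).fieldRange
  refine (Subgroup.index_dvd_of_le fun g hg => ?_).trans h.symm.dvd
  exact ⟨AlgEquiv.ofRingEquiv (f := g.toRingEquiv) fun x => hg ⟨_, x, rfl⟩, AlgEquiv.ext fun _ => rfl⟩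

theorem lift_dat (L K M Ω : Type) [Field L] [NumberField L] [Normal ℚ L] [Field K] [Algebra ℚ K]
    [FiniteDimensional ℚ K] [Field M] [Algebra K M] [Normal K M] [Field Ω] [Algebra ℚ Ω]
    [IsGalois ℚ Ω] [Algebra L Ω] [Algebra K Ω] [Algebra M Ω] [IsScalarTower ℚ L Ω]
    [IsScalarTower ℚ K Ω] [IsScalarTower K M Ω] {p B b k : ℕ} (hp : p.Prime)
    (hK : Module.finrank ℚ K ≤ B) (P : Ideal (𝓞 M)) [P.IsPrime] (h3 : (p : 𝓞 M) ∈ P)
    (C : Subgroup (M ≃ₐ[K] M)) (h0 : 0 < C.relIndex (MulAction.stabilizer (M ≃ₐ[K] M) P))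
    (hB : C.relIndex (MulAction.stabilizer (M ≃ₐ[K] M) P) ≤ B)
    (hC : ∀ g ∈ C, ∀ h, g ^ b * h = h * g ^ b)
    {q : M[X]} (hq : q ≠ 0) (hk : q.natDegree ≤ k) {α : L}
    (hα : aeval (algebraMap L Ω α) q = 0) : ∃ (A N C' : Subgroup (L ≃ₐ[ℚ] L)) (Q : Ideal (𝓞 L)),
      Dat p (B * B) b A N C' Q ∧ (orb N α).card ≤ k := by
  classical
  let u : (Ω ≃ₐ[ℚ] Ω) →* (L ≃ₐ[ℚ] L) := AlgEquiv.restrictNormalHom L
  let w : (Ω ≃ₐ[K] Ω) →* (Ω ≃ₐ[ℚ] Ω) := AlgEquiv.restrictScalarsHom ℚ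
  let v : (Ω ≃ₐ[K] Ω) →* (M ≃ₐ[K] M) := AlgEquiv.restrictNormalHom M
  have hu : Function.Surjective u := AlgEquiv.restrictNormalHom_surjective Ω
  have : Algebra.IsAlgebraic K Ω := Algebra.IsAlgebraic.tower_top (K := ℚ) K
  have : Algebra.IsAlgebraic M Ω := Algebra.IsAlgebraic.tower_top (K := K) M
  obtain ⟨Q, hQ, hQP⟩ := Ideal.exists_ideal_over_prime_of_isIntegral_of_isDomain (S := 𝓞 Ω) P (by
    rw [(RingHom.injective_iff_ker_eq_bot _).1 (RingOfIntegers.algebraMap.injective M Ω)]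
    exact bot_le)
  have h4 : (p : 𝓞 L) ∈ Q.under (𝓞 L) := by
    rw [← hQP, Ideal.mem_comap, map_natCast] at h3
    rwa [Ideal.mem_comap, map_natCast]
  have hK0 : 0 < Module.finrank ℚ K := Module.finrank_pos
  have hw0 : w.range.index ≠ 0 := ne_zero_of_dvd_ne_zero hK0.ne' (idx_range K Ω)
  have hw : w.range.index ≤ B := (Nat.le_of_dvd hK0 (idx_range K Ω)).trans hK
  set S := MulAction.stabilizer (Ω ≃ₐ[ℚ] Ω) Q
  have hv : (S.comap w).map v ≤ MulAction.stabilizer (M ≃ₐ[K] M) P := by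
    rintro _ ⟨g, hg, rfl⟩
    refine mem_stab.2 fun a => ?_
    have h1 : algebraMap (𝓞 M) (𝓞 Ω) (v g • a) = w g • algebraMap (𝓞 M) (𝓞 Ω) a :=
      RingOfIntegers.ext (g.restrictNormal_commutes M a)
    rw [← hQP, Ideal.mem_comap, Ideal.mem_comap, h1]
    exact mem_stab.1 hg _
  have e1 : ((C.comap v).map w).relIndex S =
      C.relIndex ((S.comap w).map v) * w.range.relIndex S := by
    rw [← Subgroup.relIndex_comap, ← Subgroup.relIndex_map_map_of_injective (f := w) (C.comap v) _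
      (AlgEquiv.restrictScalarsHom_injective ℚ), Subgroup.map_comap_eq,
      Subgroup.relIndex_inf_mul_relIndex, inf_eq_left.2 (Subgroup.map_le_range _ _)]
  have e2 : w.range.relIndex S ≤ w.range.index ∧ w.range.relIndex S ≠ 0 := by
    rw [← Subgroup.relIndex_top_right] at hw0 ⊢
    exact ⟨Subgroup.relIndex_le_of_le_right le_top hw0,
      mt (Subgroup.relIndex_eq_zero_of_le_right le_top) hw0⟩
  refine ⟨w.range.map u, (v.ker.map w).map u, ((C.comap v).map w).map u, Q.under (𝓞 L),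
    ⟨Ideal.IsPrime.isMaximal inferInstance fun e => ?_, h4, ?_,
      Subgroup.map_mono (Subgroup.map_le_range _ _), ?_,
      Subgroup.map_mono (Subgroup.map_le_range _ _), ?_, ?_⟩, ?_⟩
  · rw [e, Ideal.mem_bot] at h4
    exact Nat.cast_ne_zero.2 hp.ne_zero h4
  · exact ((Nat.le_of_dvd (Nat.pos_of_ne_zero hw0) (w.range.index_map_dvd hu)).trans hw).trans
      (Nat.le_mul_self B)
  · rintro _ ⟨_, ⟨a, rfl⟩, rfl⟩ _ ⟨_, ⟨n, hn, rfl⟩, rfl⟩
    exact ⟨_, ⟨_, v.normal_ker.conj_mem n hn a, rfl⟩, by simp⟩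
  · refine (Subgroup.relIndex_le_of_le_right (dec_surj L Ω Q)
      Subgroup.index_ne_zero_of_finite).trans ((rel_map u ?_).trans ?_)
    · rw [e1]
      exact mul_ne_zero (mt (Subgroup.relIndex_eq_zero_of_le_right hv) h0.ne') e2.2
    · rw [e1]
      exact Nat.mul_le_mul ((Subgroup.relIndex_le_of_le_right hv h0.ne').trans hB) (e2.1.trans hw)
  · rintro _ ⟨_, ⟨g, hg, rfl⟩, rfl⟩ _ ⟨_, ⟨h, rfl⟩, rfl⟩
    refine ⟨_, ⟨(g ^ b * h)⁻¹ * (h * g ^ b), ?_, rfl⟩, by simp⟩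
    rw [SetLike.mem_coe, MonoidHom.mem_ker, map_mul, map_inv, inv_mul_eq_one, map_mul, map_mul,
      map_pow]
    exact hC _ hg _
  · refine le_trans (Finset.card_le_card_of_injOn (t := (q.aroots Ω).toFinset) (algebraMap L Ω)
      (fun z hz => ?_) (algebraMap L Ω).injective.injOn) ((Multiset.toFinset_card_le _).trans
        ((card_roots' _).trans (natDegree_map_le.trans hk)))
    obtain ⟨_, ⟨_, ⟨n, hn, rfl⟩, rfl⟩, rfl⟩ := mem_orb.mp hz
    have e : (n : Ω →+* Ω).comp (algebraMap M Ω) = algebraMap M Ω := by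
      ext x
      have h1 := n.restrictNormal_commutes M x
      rw [show n.restrictNormal M = 1 from hn] at h1
      exact h1.symm
    have h2 := hom_eval₂ q (algebraMap M Ω) (n : Ω →+* Ω) (algebraMap L Ω α)
    rw [e, ← aeval_def, ← aeval_def, hα, map_zero] at h2
    rw [Finset.mem_coe, Multiset.mem_toFinset, mem_aroots]
    exact ⟨hq, (congrArg (aeval · q) ((w n).restrictNormal_commutes L α)).trans h2.symm⟩

end Pool.Agent.Lib.MP_1e748d_nt.Vb
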