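import Pool.Agent.Lib.MP_1e748d_nt.Vb.Core
import Pool.Agent.Lib.MP_1e748d_nt.Vb.Lift

/-! The bound on the degree for polynomials. -/

set_option autoImplicit false

namespace Pool.Agent.Lib.MP_1e748d_nt.Vb

open Polynomial Pool.Agent.Lib.MP_1e748d_nt.Va NumberField Pointwise

lemma aux2 {c ε : ℝ} {l B b k D : ℕ} {P : ℤ → Prop} (hl : l.Prime)
    (h : Con2 c ε l (B * B) b k D P) {p : ℤ[X]}
    (hm : p.Monic) (hi : Irreducible p) (hs : (p.map (algebraMap ℤ ℝ)).roots.card = p.natDegree)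
    (hr : ∀ x ∈ (p.map (algebraMap ℤ ℝ)).roots, |x - c| ≤ 2 + ε)
    (L : Type) [Field L] [inst : Algebra ℚ L]
    [hL : IsSplittingField ℚ L (p.map (algebraMap ℤ ℚ))]
    (K M : Type) [Field K] [Algebra ℚ K] [FiniteDimensional ℚ K] [Field M] [Algebra ℚ M]
    [Algebra K M] [Normal K M] (hK : Module.finrank ℚ K ≤ B) (Q : Ideal (𝓞 M)) [Q.IsPrime]
    (h3 : (l : 𝓞 M) ∈ Q) (C : Subgroup (M ≃ₐ[K] M))
    (h0 : 0 < C.relIndex (MulAction.stabilizer (M ≃ₐ[K] M) Q))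
    (hB : C.relIndex (MulAction.stabilizer (M ≃ₐ[K] M) Q) ≤ B)
    (hC : ∀ g ∈ C, ∀ h, g ^ b * h = h * g ^ b)
    {q : M[X]} (hq : q ∣ p.map (algebraMap ℤ M)) (hq0 : 0 < q.natDegree) (hk : q.natDegree ≤ k)
    (hD : D < p.natDegree) :
    ∃ m : ℤ, P m ∧ ∀ x ∈ (p.map (algebraMap ℤ ℝ)).roots, |x - m| ≤ 2 := by
  have : CharZero L := algebraRat.charZero L
  obtain rfl : inst = DivisionRing.toRatAlgebra := Subsingleton.elim _ _
  obtain ⟨p', hp'⟩ : ∃ p', p' = p.map (algebraMap ℤ ℚ) := ⟨_, rfl⟩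
  rw [← hp'] at hL
  have hm' : p'.Monic := hp' ▸ hm.map _
  have hi' : Irreducible p' := hp' ▸ (hm.irreducible_iff_irreducible_map_fraction_map).mp hi
  have hmm : p'.map (algebraMap ℚ ℝ) = p.map (algebraMap ℤ ℝ) := by
    rw [hp', map_map]
    congr 1
  have hsp : (p'.map (algebraMap ℚ ℝ)).Splits := by
    rw [hmm, splits_iff_card_roots, hs, hm.natDegree_map]
  have : FiniteDimensional ℚ L := IsSplittingField.finiteDimensional L p'
  have : NumberField L := ⟨⟩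
  have : IsGalois ℚ L := IsGalois.of_separable_splitting_field hi'.separable
  have : IsScalarTower ℚ K M := .of_algebraMap_eq' (RingHom.ext_rat _ _)
  have : Algebra.IsAlgebraic ℚ M := Algebra.IsAlgebraic.trans ℚ K M
  let ι := IsSplittingField.lift L p' hsp
  let j : L →ₐ[ℚ] AlgebraicClosure ℚ := IsAlgClosed.lift
  let j' : M →ₐ[ℚ] AlgebraicClosure ℚ := IsAlgClosed.lift
  let := j.toRingHom.toAlgebra
  let := j'.toRingHom.toAlgebra
  let := (j'.toRingHom.comp (algebraMap K M)).toAlgebra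
  have : IsScalarTower ℚ L (AlgebraicClosure ℚ) := .of_algebraMap_eq' (RingHom.ext_rat _ _)
  have : IsScalarTower ℚ K (AlgebraicClosure ℚ) := .of_algebraMap_eq' (RingHom.ext_rat _ _)
  have : IsScalarTower K M (AlgebraicClosure ℚ) := .of_algebraMap_eq' rfl
  have : Normal ℚ (AlgebraicClosure ℚ) :=
    @IsAlgClosure.normal ℚ _ _ _ _ (AlgebraicClosure.instIsAlgClosure ℚ)
  have : IsGalois ℚ (AlgebraicClosure ℚ) := ⟨⟩
  obtain ⟨β, hβ⟩ := IsAlgClosed.exists_aeval_eq_zero (AlgebraicClosure ℚ) q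
    (natDegree_pos_iff_degree_pos.mp hq0).ne'
  have hβ' : β ∈ p'.rootSet (AlgebraicClosure ℚ) := by
    rw [mem_rootSet_of_ne hm'.ne_zero, hp', aeval_map_algebraMap,
      ← aeval_map_algebraMap M β p]
    exact aeval_eq_zero_of_dvd_aeval_eq_zero hq hβ
  rw [← (IsSplittingField.splits L p').image_rootSet j] at hβ'
  obtain ⟨α, hα, rfl⟩ := hβ'
  replace hα := aeval_eq_zero_of_mem_rootSet hα
  obtain ⟨A, N, C', Q', hA1, hA3⟩ := lift_dat L K M (AlgebraicClosure ℚ) hl hK Q h3 C h0 hB hC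
    (ne_zero_of_natDegree_gt hq0) hk (α := α) hβ
  have hint : IsIntegral ℤ α := ⟨p, hm, by
    rw [hp', aeval_map_algebraMap] at hα
    exact hα⟩
  have hmin : minpoly ℚ α = p' := (minpoly.eq_of_irreducible_of_monic hi' hα hm').symm
  refine (h L A N C' Q' hA1 ι α ⟨hint, fun g => hr _ ?_⟩ hA3 ?_).imp
    fun m hm => ⟨hm.1, fun x hx => ?_⟩
  · rw [← hmm, mem_roots (hm'.map _).ne_zero, IsRoot.def, eval_map_algebraMap]
    change aeval (ι (g α)) p' = 0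
    rw [aeval_algHom_apply, aeval_algHom_apply, hα, map_zero, map_zero]
  · intro q hq hd h0
    have h1 : aeval α (q.map (algebraMap ℤ ℚ)) = 0 := by
      rw [aeval_map_algebraMap]
      exact h0
    have h2 := natDegree_le_of_dvd (minpoly.dvd ℚ α h1)
      ((Polynomial.map_ne_zero_iff (algebraMap ℤ ℚ).injective_int).mpr hq)
    rw [hmin, hp', hm.natDegree_map] at h2
    have := natDegree_map_le (f := algebraMap ℤ ℚ) (p := q)
    omega
  · have h1 : x ∈ p'.rootSet ℝ := by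
      rw [← hmm] at hx
      exact Finset.mem_coe.mpr (Multiset.mem_toFinset.mpr hx)
    rw [← (IsSplittingField.splits L p').image_rootSet ι] at h1
    obtain ⟨y, hy, rfl⟩ := h1
    obtain ⟨g, rfl⟩ := minpoly.exists_algEquiv_of_root' (K := ℚ) (x := y) (y := α)
      (Algebra.IsAlgebraic.isAlgebraic α) (by rw [hmin]; exact aeval_eq_zero_of_mem_rootSet hy)
    exact hm.2 g

lemma abs2 {c ε : ℝ} {l B b k D : ℕ} {P : ℤ → Prop} (hl : l.Prime)
    (h : Con2 c ε l (B * B) b k D P) {p : ℤ[X]}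
    (hm : p.Monic) (hi : Irreducible p) (hs : (p.map (algebraMap ℤ ℝ)).roots.card = p.natDegree)
    (hr : ∀ x ∈ (p.map (algebraMap ℤ ℝ)).roots, |x - c| ≤ 2 + ε)
    (hM : ∃ (M : IntermediateField ℚ ℂ) (K : IntermediateField ℚ M), FiniteDimensional ℚ K ∧
      Module.finrank ℚ K ≤ B ∧ IsGalois K M ∧
      (∃ (Q : Ideal (𝓞 M)) (C : Subgroup (M ≃ₐ[K] M)), Q.IsPrime ∧ (l : 𝓞 M) ∈ Q ∧
        0 < C.relIndex (MulAction.stabilizer (M ≃ₐ[K] M) Q) ∧
        C.relIndex (MulAction.stabilizer (M ≃ₐ[K] M) Q) ≤ B ∧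
        ∀ g ∈ C, ∀ h, g ^ b * h = h * g ^ b) ∧
      ∃ q : M[X], q ∣ p.map (algebraMap ℤ M) ∧ 0 < q.natDegree ∧ q.natDegree ≤ k)
    (hD : D < p.natDegree) :
    ∃ m : ℤ, P m ∧ ∀ x ∈ (p.map (algebraMap ℤ ℝ)).roots, |x - m| ≤ 2 := by
  obtain ⟨M, K, _, hK, _, ⟨Q, C, _, h3, h0, hB, hC⟩, q, h1, h2, h4⟩ := hM
  exact aux2 hl h hm hi hs hr (p.map (algebraMap ℤ ℚ)).SplittingField
    (hL := IsSplittingField.splittingField _) K M hK Q h3 C h0 hB hC h1 h2 h4 hD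

end Pool.Agent.Lib.MP_1e748d_nt.Vb
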