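import Pool.Agent.Lib.MP_1e748d_nt.Vb.Orb
import Pool.Agent.Lib.MP_1e748d_nt.Va.Main

/-! The global argument at finite level. -/

set_option autoImplicit false

namespace Pool.Agent.Lib.MP_1e748d_nt.Vb

open Polynomial Pool.Agent.Lib.MP_1e748d_nt.Va NumberField

section

variable {L : Type} [Field L] [NumberField L]

lemma van2 [IsGalois ℚ L] {ι : L →+* ℝ} {A N : Subgroup (L ≃ₐ[ℚ] L)}
    (hN : ∀ a ∈ A, ∀ n ∈ N, a * n * a⁻¹ ∈ N)
    {B k M p r : ℕ} (hp : p.Prime) (hB : A.index ≤ B) {V : ValuationSubring L}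
    (hV : ∀ x, IsIntegral ℤ x → x ∈ V) (h3 : ∀ z ∈ V, (p : L) * z ≠ 1) {c ε : ℝ}
    {W F Z f : ℤ[X][X]} (hF : F = (W ^ r) ^ M * Z - (p : ℤ[X][X]) ^ M * f)
    (hs : ∀ x y : ℝ, |x - c| ≤ 2 + ε → |y - c| ≤ 2 + ε → |ev x y F| ^ (B * k) < (p : ℝ) ^ M)
    {α : L} (hα : Cf c ε ι α) (hk : (orb N α).card ≤ k) (s : L ≃ₐ[ℚ] L)
    (hc : ∀ h ∈ A, (s * h)⁻¹ * (h * s) ∈ N)
    (hW : ∀ g ∈ A, ∃ w, Rl N (g α) w ∧ Sm V p r (ev (g α) (s w) W)) :
    ∃ n ∈ N, ev α ((s * n) α) F = 0 := by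
  classical
  by_contra hcon
  have hn : ∀ w ∈ orb N α, ev α (s w) F ≠ 0 := fun w hw h => by
    obtain ⟨n, hn, rfl⟩ := mem_orb.mp hw
    exact hcon ⟨n, hn, h⟩
  have e1 : ∀ (g : L ≃ₐ[ℚ] L) (w : L), g (ev α w F) = ev (g α) (g w) F := fun g w =>
    hom_ev (g : L →+* L) α w F
  have e : ∀ g : L ≃ₐ[ℚ] L, g (∏ w ∈ orb N α, ev α (s w) F) =
      ∏ w ∈ orb N α, ev (g α) (g (s w)) F := fun g => by simp only [map_prod, e1]
  have hw : ∀ w ∈ orb N α, Cf c ε ι (s w) := fun w hw => by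
    obtain ⟨n, -, rfl⟩ := mem_orb.mp hw
    exact (hα.conj n).conj s
  have hne : α ∈ orb N α := mem_orb.mpr (Rl.refl α)
  have h0 : ∏ w ∈ orb N α, ev α (s w) F = 0 := by
    refine norm_zero ι A (M := M) hp hB V.toSubring hV h3
      (IsIntegral.prod _ fun w h => isIntegral_ev hα.1 (hw w h).1 F) (fun g hg => ?_) fun g => ?_
    · obtain ⟨_, ⟨n, hn, rfl⟩, h⟩ := hW g hg
      obtain ⟨z, hz, h⟩ := (sm_iff (Nat.cast_ne_zero.mpr hp.ne_zero)).mp h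
      obtain ⟨w0, hm, e2⟩ : ∃ w0 ∈ orb N α, g (s w0) = s (n (g α)) :=
        ⟨_, mem_orb.mpr ⟨_, N.mul_mem (N.inv_mem (hc g hg)) (hN _ (A.inv_mem hg) n hn), rfl⟩,
          by simp⟩
      have hi := fun u => hV _ (isIntegral_ev (hα.conj g).1 (((hα.conj g).conj n).conj s).1 u)
      refine ⟨_, V.mul_mem _ _ (sub_mem (mul_mem (pow_mem hz M) (hi Z)) (hi f)) (prod_mem
        (t := (orb N α).erase w0) fun w h => hV _ (isIntegral_ev (hα.conj g).1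
          ((hw w (Finset.mem_of_mem_erase h)).conj g).1 F)), ?_⟩
      rw [e, ← Finset.mul_prod_erase _ _ hm, ← mul_assoc]
      congr 1
      rw [e2, hF, map_sub, map_mul, map_mul, map_pow, map_pow, map_pow, h, map_natCast, mul_pow]
      ring
    · have h1 : (1 : ℝ) ≤ (p : ℝ) ^ M := one_le_pow₀ (by exact_mod_cast hp.one_le)
      have h2 : ∀ w ∈ orb N α, |ι (ev (g α) (g (s w)) F)| ^ (B * k) < (p : ℝ) ^ M := fun w h => by
        rw [hom_ev]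
        exact hs _ _ (hα.2 g) ((hw w h).2 g)
      refine lt_of_pow_lt_pow_left₀ k (by positivity) ?_
      rw [e, map_prod, Finset.abs_prod, ← pow_mul, ← Finset.prod_pow]
      refine (Finset.prod_lt_prod_of_nonempty (fun w h => pow_pos ?_ _) h2 ⟨α, hne⟩).trans_le ?_
      · rw [← e1]
        exact norm_va_pos ι (hn w h) g
      · rw [Finset.prod_const]
        exact pow_le_pow_right₀ h1 hk
  exact Finset.prod_ne_zero_iff.mpr hn h0

/-- `z` lies in the orbit of `y` or of `m - y`. -/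
def Bl (N : Subgroup (L ≃ₐ[ℚ] L)) (m : ℤ) (y z : L) : Prop := Rl N y z ∨ Rl N (m - y) z

lemma Bl.trans {N : Subgroup (L ≃ₐ[ℚ] L)} {m : ℤ} {x y z : L} (h : Bl N m x y) (h' : Bl N m y z) :
    Bl N m x z := by
  rcases h with h1 | h1 <;> rcases h' with h2 | h2
  · exact Or.inl (h1.trans h2)
  · exact Or.inr ((h1.rho m).trans h2)
  · exact Or.inr (h1.trans h2)
  · exact Or.inl (Rl.trans (by simpa using h1.rho m) h2)

lemma Bl.symm {N : Subgroup (L ≃ₐ[ℚ] L)} {m : ℤ} {y z : L} (h : Bl N m y z) : Bl N m z y :=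
  h.imp Rl.symm fun h => Rl.symm (by simpa using h.rho m)

lemma bl_card {N : Subgroup (L ≃ₐ[ℚ] L)} {m : ℤ} {y : L} {k : ℕ} (hk : (orb N y).card ≤ k) :
    ∃ s : Finset L, s.card ≤ 2 * k ∧ ∀ z, Bl N m y z → z ∈ s := by
  classical
  refine ⟨orb N y ∪ orb N (m - y), ?_, fun z hz => by simpa [mem_orb, Bl] using hz⟩
  have := Finset.card_union_le (orb N y) (orb N (m - y))
  have := orb_sub (N := N) y m
  omega

lemma iter2 {A N : Subgroup (L ≃ₐ[ℚ] L)} {V : ValuationSubring L} {p r q k : ℕ} {α : L} {m : ℤ}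
    (hV : ∀ g : L ≃ₐ[ℚ] L, g α ∈ V) (hk : ∀ g ∈ A, (orb N (g α)).card ≤ k)
    (h : ∀ g : A, ∃ g' : A, Bl N m (g.1 α) (g'.1 α) ∧ Sm V p r (g'.1 α - g.1 α ^ q)) (g : A) :
    ∃ i < 2 * k + 2, ∃ l < 2 * k + 2, Sm V p r (g.1 α ^ q ^ (i + l + 1) - g.1 α ^ q ^ i) := by
  classical
  choose z hz1 hz2 using h
  have key : ∀ i, Bl N m (g.1 α) ((z^[i] g).1 α) ∧
      Sm V p r ((z^[i + 1] g).1 α - g.1 α ^ q ^ (i + 1)) := by
    intro i
    induction i with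
    | zero => exact ⟨Or.inl (Rl.refl _), by simpa using hz2 g⟩
    | succ i ih =>
      constructor
      · rw [Function.iterate_succ_apply']
        exact ih.1.trans (hz1 _)
      · have := (hz2 (z^[i + 1] g)).add (ih.2.pow (hV _) (pow_mem (hV g) _) q)
        rwa [sub_add_sub_cancel, ← pow_mul, ← pow_succ, ← Function.iterate_succ_apply' z] at this
  obtain ⟨S, hS, hS'⟩ := bl_card (m := m) (hk g g.2)
  obtain ⟨i, hi, j, hj, hij, e⟩ := Finset.exists_ne_map_eq_of_card_lt_of_maps_to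
    (s := Finset.range (2 * k + 1)) (t := S) (f := fun i => (z^[i + 1] g).1 α) (by
      rw [Finset.card_range]
      omega) fun i _ => hS' _ (key (i + 1)).1
  wlog hlt : i < j generalizing i j
  · exact this j hj i hi hij.symm e.symm (by omega)
  rw [Finset.mem_range] at hi hj
  refine ⟨i + 1, by omega, j - i - 1, by omega, ?_⟩
  have := (key j).2.neg.add (key i).2
  rwa [neg_sub, e, sub_add_sub_cancel, show j + 1 = i + 1 + (j - i - 1) + 1 by omega] at this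

end

theorem core2 (c : ℝ) (p B b k : ℕ) (hp : p.Prime) (hb : ¬ p ∣ b) : ∃ ε : ℝ, 0 < ε ∧ ∃ D : ℕ,
    ∀ (L : Type) [Field L] [NumberField L] [IsGalois ℚ L] (A N C : Subgroup (L ≃ₐ[ℚ] L))
    (Q : Ideal (𝓞 L)), Dat p B b A N C Q →
    ∀ (ι : L →+* ℝ) (α : L), Cf c ε ι α → (orb N α).card ≤ k →
    (∀ τ ∈ A, (∀ g ∈ A, Bl N ⌊2 * c⌋ (g α) (τ (g α))) → τ ∈ N) → Big D α →
    ¬ Far c ι α := by
  obtain ⟨r, q, hq, hloc⟩ := loc_rel p B b k hp hb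
  set n : ℤ := ⌊2 * c⌋ with hn
  obtain ⟨D1, hD1⟩ := main_deg ((X - C (X ^ q)) ^ r)
  obtain ⟨ε1, hε1, M1, -, F1, Z1, f1, h01, hF1, -, hs1⟩ :=
    main_aux c (B * k) D1 hp.two_le _ ((monic_X_sub_C _).pow r) hD1
  obtain ⟨D3, hD3⟩ := main_deg ((X - C X) ^ r)
  obtain ⟨ε3, hε3, M3, -, F3, Z3, f3, h03, hF3, -, hs3⟩ :=
    main_aux c (B * k) D3 hp.two_le _ ((monic_X_sub_C _).pow r) hD3
  have hm : (∏ i ∈ Finset.range (2 * k + 2) ×ˢ Finset.range (2 * k + 2),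
      (X ^ q ^ (i.1 + i.2 + 1) - X ^ q ^ i.1) : ℤ[X]).Monic := by
    refine monic_prod_of_monic _ _ fun i _ => (monic_X_pow _).sub_of_left ?_
    rw [degree_X_pow, degree_X_pow]
    exact_mod_cast Nat.pow_lt_pow_right hq (by omega)
  obtain ⟨ε2, hε2, M2, E2, F2, Z2, f2, h02, hF2, hd2, hs2⟩ :=
    main_aux c (B * 1) 0 hp.two_le _ ((hm.map C).pow r) fun j => by
      rw [← Polynomial.map_pow, coeff_map, natDegree_C]
  obtain ⟨δ1, hδ1, K1, hr1⟩ := rig c h01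
  obtain ⟨δ3, hδ3, K3, hr3⟩ := rig c h03
  refine ⟨min (min ε1 (min ε2 ε3)) (min δ1 δ3), by positivity, K1 + K3 + F2.natDegree, ?_⟩
  intro L _ _ _ A N C' Q hd ι α hα hk hfix hbig hfar
  have hN := hd.nor
  have hB := hd.idx
  have hk' : ∀ g ∈ A, (orb N (g α)).card ≤ k := fun g hg => by
    rwa [orb_map2 hN _ hg, Finset.card_map]
  have blk : ∀ s ∈ A, ∀ g : L ≃ₐ[ℚ] L, (∃ m ∈ N, (s * m) (g α) = g α ∨ g α + (s * m) (g α) = n) →
      ∀ w, Rl N (g α) w → Bl N n (g α) (s w) := by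
    rintro s hs g ⟨m, hm, h⟩ w hw
    have h1 : Rl N ((s * m) (g α)) (s w) := rl_map hN (Rl.trans (Rl.symm ⟨m, hm, rfl⟩) hw) hs
    rcases h with h | h
    · exact Or.inl (h ▸ h1)
    · exact Or.inr (eq_sub_of_add_eq' h ▸ h1)
  obtain ⟨V, hV, h3, ⟨σ, hσA, hσ, h⟩ | ⟨τ, hτA, hτ, h1, h⟩⟩ := hloc L A N C' Q hd
  · have key := iter2 (q := q) (m := n) (fun g => hV _ (hα.conj g).1) hk' fun g => by
      have ha := hα.conj g
      obtain ⟨_, ⟨m, hm, rfl⟩, h2⟩ := h _ ha.1 (hk' g g.2)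
      refine ⟨⟨σ * m * g, A.mul_mem (A.mul_mem hσA (hd.le hm)) g.2⟩,
        blk σ hσA g ?_ _ ⟨m, hm, rfl⟩, h2⟩
      refine (van2 hN hp hB hV h3 hF1 hs1 (ha.mono (by simp)) (hk' g g.2) σ hσ
        fun g' hg' => ?_).imp fun m hm => ⟨hm.1, hr1 L ι _ _ (ha.mono (by simp))
          ((hbig.conj g).mono (by omega)) (hfar.conj g) hm.2⟩
      simpa using h _ (ha.conj g').1 (hk' (g' * g) (A.mul_mem hg' g.2))
    obtain ⟨m, hm, h0⟩ := van2 (N := ⊥) (k := 1) (by simp) hp hB hV h3 hF2 hs2 (hα.mono (by simp))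
      (Finset.card_le_one.mpr (by simp [mem_orb, Rl])) 1 (by simp) fun g hg => by
        obtain ⟨i, hi, l, hl, h2⟩ := key ⟨g, hg⟩
        refine ⟨g α, Rl.refl _, ?_⟩
        rw [e2_map_C, eval₂_finsetProd, ← Finset.mul_prod_erase _ _
          (Finset.mk_mem_product (Finset.mem_range.mpr hi) (Finset.mem_range.mpr hl))]
        refine Sm.mul (by simpa using h2) (prod_mem fun i _ => ?_)
        simpa using sub_mem (pow_mem (hV _ (hα.conj g).1) _) (pow_mem (hV _ (hα.conj g).1) _)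
    rw [Subgroup.mem_bot.mp hm, one_mul, AlgEquiv.one_apply] at h0
    have hF : F2 = (F2.map (evalRingHom 0)).map C := by
      ext1 j
      rw [coeff_map, coeff_map, eq_C_of_natDegree_le_zero (p := F2.coeff j) (by simpa using hd2 j)]
      simp
    rw [hF, e2_map_C] at h0
    refine hbig _ (fun h => h02 (by rw [hF, h, Polynomial.map_zero])) ?_ h0
    have := natDegree_map_le (f := evalRingHom 0) (p := F2)
    omega
  · refine h1 (hfix τ hτA fun g hg => blk τ hτA g ?_ _ (Rl.refl _))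
    have ha := hα.conj g
    refine (van2 hN hp hB hV h3 hF3 hs3 (ha.mono (by simp)) (hk' g hg) τ hτ
      fun g' hg' => ?_).imp fun m hm => ⟨hm.1, hr3 L ι _ _ (ha.mono (by simp))
        ((hbig.conj g).mono (by omega)) (hfar.conj g) hm.2⟩
    simpa using h _ (ha.conj g').1 (hk' (g' * g) (A.mul_mem hg' hg))

/-- Large degree is possible only inside an interval with integer centre satisfying `P`. -/
def Con2 (c ε : ℝ) (p B b k D : ℕ) (P : ℤ → Prop) : Prop :=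
  ∀ (L : Type) [Field L] [NumberField L] [IsGalois ℚ L] (A N C : Subgroup (L ≃ₐ[ℚ] L))
    (Q : Ideal (𝓞 L)), Dat p B b A N C Q →
    ∀ (ι : L →+* ℝ) (α : L), Cf c ε ι α → (orb N α).card ≤ k → Big D α →
    ∃ m : ℤ, P m ∧ ∀ g : L ≃ₐ[ℚ] L, |ι (g α) - m| ≤ 2

theorem big2 (c : ℝ) (p B b k : ℕ) (hp : p.Prime) (hb : ¬ p ∣ b) : ∃ ε : ℝ, 0 < ε ∧ ∃ D : ℕ,
    Con2 c ε p B b k D fun m => c = m := by
  obtain ⟨ε, hε, D, h⟩ := core2 c p B b (2 * k) hp hb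
  refine ⟨ε, hε, D, fun L _ _ _ A N C Q hd ι α hα hk hbig => ?_⟩
  by_contra hcon
  let N' : Subgroup (L ≃ₐ[ℚ] L) :=
    { carrier := {τ | τ ∈ A ∧ ∀ g ∈ A, Bl N ⌊2 * c⌋ (g α) (τ (g α))}
      one_mem' := ⟨A.one_mem, fun g _ => Or.inl (Rl.refl _)⟩
      mul_mem' := fun {s t} hs ht => ⟨A.mul_mem hs.1 ht.1, fun g hg =>
        (ht.2 g hg).trans (hs.2 (t * g) (A.mul_mem ht.1 hg))⟩
      inv_mem' := fun {s} hs => ⟨A.inv_mem hs.1, fun g hg =>
        Bl.symm (by simpa using hs.2 (s⁻¹ * g) (A.mul_mem (A.inv_mem hs.1) hg))⟩ }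
  have h1 : ∀ g ∈ A, ∀ z : L, Rl N' (g α) z → Bl N ⌊2 * c⌋ (g α) z := by
    rintro g hg _ ⟨n, hn, rfl⟩
    exact hn.2 g hg
  obtain ⟨S, hS, hS'⟩ := bl_card (m := ⌊2 * c⌋) hk
  refine h L A N' C Q ⟨hd.max, hd.mem, hd.idx, fun s hs => hs.1, fun t ht s hs =>
      ⟨A.mul_mem (A.mul_mem ht hs.1) (A.inv_mem ht), fun g hg => ?_⟩, hd.cle, hd.rel,
      fun g hg g' hg' => ⟨hd.le (hd.com g hg g' hg'), fun _ _ =>
        Or.inl ⟨_, hd.com g hg g' hg', rfl⟩⟩⟩ ι α hα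
    ((Finset.card_le_card fun z hz => hS' z (h1 1 A.one_mem z (mem_orb.mp hz))).trans hS)
    (fun τ hτ h2 => ⟨hτ, fun g hg => (h2 g hg).elim (h1 g hg _) fun h3 => ?_⟩) hbig fun m hm => ?_
  · exact (hs.2 (t⁻¹ * g) (A.mul_mem (A.inv_mem ht) hg)).imp
      (fun h2 => by simpa using rl_map hd.nor h2 ht) fun h2 => by simpa using rl_map hd.nor h2 ht
  · exact (h1 g hg _ (by simpa using h3.rho ⌊2 * c⌋)).trans (Or.inr (by simpa using Rl.refl _))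
  · by_contra h
    exact hcon ⟨m, hm, fun g => hm ▸ not_lt.mp fun h' => h ⟨g, h'⟩⟩

/-- The bounds are uniform in the centre. -/
theorem unif2 (p B b k : ℕ) (hp : p.Prime) (hb : ¬ p ∣ b) : ∃ ε : ℝ, 0 < ε ∧ ∃ D : ℕ, ∀ c : ℝ,
    Con2 c ε p B b k D fun _ => True := by
  classical
  choose ε hε D h using fun c => big2 c p B b k hp hb
  obtain ⟨t, -, ht⟩ := (isCompact_Icc (a := (0 : ℝ)) (b := 1)).elim_nhds_subcover
    (fun c => Metric.ball c (ε c / 2)) fun c _ => Metric.ball_mem_nhds c (half_pos (hε c))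
  have hc : ∀ x ∈ Set.Icc (0 : ℝ) 1, ∃ c ∈ t, |x - c| < ε c / 2 := fun x hx => by
    simpa [Real.dist_eq] using ht hx
  obtain ⟨c1, hc1, -⟩ := hc 0 (by simp)
  obtain ⟨c0, -, hc0⟩ := t.exists_min_image ε ⟨c1, hc1⟩
  refine ⟨ε c0 / 2, half_pos (hε c0), t.sup D, fun c L _ _ _ A N C' Q hq ι α hα hk hbig => ?_⟩
  obtain ⟨c', hc', hd⟩ := hc (c - ⌊c⌋) ⟨Int.fract_nonneg c, (Int.fract_lt_one c).le⟩
  have e : ∀ g : L ≃ₐ[ℚ] L, g (α - (⌊c⌋ : ℤ)) = g α - (⌊c⌋ : ℤ) := fun g => by simp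
  obtain ⟨m, -, hm⟩ := h c' L A N C' Q hq ι (α - (⌊c⌋ : ℤ))
    ⟨hα.1.sub (isIntegral_algebraMap (x := ⌊c⌋)), fun g => by
      have h1 := abs_add_le (ι (g α) - c) (c - ⌊c⌋ - c')
      rw [e, map_sub, map_intCast]
      refine le_trans (le_of_eq ?_) (h1.trans (by linarith [hα.2 g, hc0 c' hc']))
      congr 1
      ring⟩
    (le_trans (Finset.card_le_card fun z hz => by
      obtain ⟨n, hn, rfl⟩ := mem_orb.mp hz
      exact Finset.mem_image.mpr ⟨n α, mem_orb.mpr ⟨n, hn, rfl⟩, (e n).symm⟩)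
      ((Finset.card_image_le (f := (· - ((⌊c⌋ : ℤ) : L)))).trans hk))
    (fun p hp hd h0 => hbig (p.comp (X - C ⌊c⌋)) (by
      rwa [Ne, sub_eq_add_neg, ← C_neg, comp_X_add_C_eq_zero_iff]) (by
      rw [natDegree_comp, natDegree_X_sub_C, mul_one]
      exact hd.trans (Finset.le_sup hc')) (by
      rwa [eval₂_comp, eval₂_sub, eval₂_X, eval₂_C, eq_intCast]))
  refine ⟨m + ⌊c⌋, trivial, fun g => le_trans (le_of_eq ?_) (hm g)⟩
  rw [e, map_sub, map_intCast]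
  congr 1
  push_cast
  ring

/-- A non-integer centre admits bounded degree only. -/
lemma non2 {c : ℝ} (hc : ∀ n : ℤ, c ≠ n) (p B b k : ℕ) (hp : p.Prime) (hb : ¬ p ∣ b) : ∃ D : ℕ,
    Con2 c 0 p B b k D fun _ => False := by
  obtain ⟨ε, hε, D, h⟩ := big2 c p B b k hp hb
  refine ⟨D, fun L _ _ _ A N C Q hd ι α hα hk hbig => ?_⟩
  obtain ⟨m, hm, -⟩ := h L A N C Q hd ι α (hα.mono hε.le) hk hbig
  exact (hc m hm).elim

end Pool.Agent.Lib.MP_1e748d_nt.Vb
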