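import Pool.Agent.Lib.MP_1e748d_nt.Va.Conc

/-! The local alternative at a given prime, for any prime number. -/

set_option autoImplicit false

namespace Pool.Agent.Lib.MP_1e748d_nt.Vb

open Polynomial Pool.Agent.Lib.MP_1e748d_nt.Va

lemma out2 (p q B : ℕ) (hq : 2 ≤ q) : ∃ r : ℕ, 0 < r ∧ ∀ (R : Type) [CommRing R] [IsDomain R]
    [IsDiscreteValuationRing R] (A : Type) [CommGroup A] [Finite A] [MulSemiringAction A R]
    [FaithfulSMul A R] (π : R) (_ : Res p π) (σ : A) (_ : ∀ x : R, π ∣ σ • x - x ^ q) (e : ℕ)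
    (_ : Associated (π ^ e) (p : R)) (_ : e ≤ B * Nat.card (fil A π 1)),
    e ≤ r ∨ ∃ τ : A, τ ≠ 1 ∧ ∀ x : R, (p : R) ∣ (τ • x - x) ^ r := by
  refine ⟨p ^ 2 * (B * q) * q ^ (1 + p * (B * q)) + 1, Nat.succ_pos _, ?_⟩
  intro R _ _ _ A _ _ _ _ π hπ σ hσ e he hB
  have hw : fil (fil A π 2) π 2 = ⊤ := by rw [out_sub, Subgroup.subgroupOf_self]
  have hS := shadow hπ (p3 (A := A) hπ) hw he
  have hi : ∀ j, j ≠ 0 → (fil (fil A π 2) π (j + 1)).relIndex (fil (fil A π 2) π j) ≤ q := by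
    intro j hj
    rcases Nat.lt_or_ge j 2 with h | h
    · obtain rfl : j = 1 := by omega
      rw [hw, Subgroup.relIndex_top_left]
      omega
    · rw [out_sub, out_sub, Subgroup.relIndex_subgroupOf (out_anti π h)]
      exact idx hπ σ hq hσ hj
  have hβ : e ≤ B * q * Nat.card (fil A π 2) := by
    rw [out_card (out_anti (A := A) π one_le_two)] at hB
    rw [mul_assoc]
    exact hB.trans (Nat.mul_le_mul_left B (Nat.mul_le_mul_right _ (idx hπ σ hq hσ one_ne_zero)))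
  have hr := rank hS hi hβ
  rcases brk hS with h | ⟨g, hg, h⟩
  · left
    rw [Nat.card_congr (Equiv.subtypeUnivEquiv h)] at hr
    have h1 := hβ.trans (Nat.mul_le_mul_left _ hr)
    have h2 : 0 < p ^ 2 := pow_pos hπ.prime.pos 2
    rw [mul_assoc (p ^ 2)]
    exact (h1.trans (Nat.le_mul_of_pos_left _ h2)).trans (Nat.le_succ _)
  · refine Or.inr ⟨g, fun h1 => hg (Subtype.ext h1), fun x => ?_⟩
    have h1 : π ^ iv π g ∣ (g : A) • x - x := (hS.mem g hg _).2 le_rfl x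
    have h2 : e ≤ iv π g * (p ^ 2 * (B * q) * q ^ (1 + p * (B * q)) + 1) := by
      have h3 := hβ.trans (Nat.mul_le_mul_left _
        (h.trans (Nat.mul_le_mul_right _ (Nat.mul_le_mul_left (p ^ 2) hr))))
      nlinarith
    refine he.symm.dvd.trans ((pow_dvd_pow π h2).trans ?_)
    rw [pow_mul]
    exact pow_dvd_pow_of_dvd h1 _

theorem out3 (p q B b : ℕ) (hq : 2 ≤ q) (hb : ¬ p ∣ b) : ∃ r : ℕ, 0 < r ∧
    ∀ (R : Type) [CommRing R] [IsDomain R] [IsDiscreteValuationRing R] (G : Type) [Group G]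
      [Finite G] [MulSemiringAction G R] [FaithfulSMul G R] (π : R) (_ : Res p π)
      (Z : Subgroup G) (_ : ∀ g ∈ Z, ∀ h ∈ Z, g * h = h * g) (_ : ∀ g : G, g ^ b ∈ Z)
      (σ : G) (_ : σ ∈ Z) (_ : ∀ x : R, π ∣ σ • x - x ^ q) (e : ℕ)
      (_ : Associated (π ^ e) (p : R)) (_ : e ≤ B * Nat.card (fil G π 1)),
      e ≤ r ∨ ∃ τ ∈ Z, τ ≠ 1 ∧ ∀ x : R, (p : R) ∣ (τ • x - x) ^ r := by
  obtain ⟨r, hr, h⟩ := out2 p q (B * b) hq
  refine ⟨r, hr, ?_⟩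
  intro R _ _ _ G _ _ _ _ π hπ Z hZ hZb σ hσ hσq e he hB
  let : CommGroup Z := { (inferInstance : Group Z) with
    mul_comm := fun g h => Subtype.ext (hZ g g.2 h h.2) }
  refine (h R Z π hπ ⟨σ, hσ⟩ hσq e he ?_).imp_right ?_
  · rw [mul_assoc]
    exact hB.trans (Nat.mul_le_mul_left B (tame hπ hb Z hZb))
  · rintro ⟨τ, h1, h3⟩
    exact ⟨τ, τ.2, fun h4 => h1 (Subtype.ext h4), h3⟩

open NumberField in
/-- The local alternative for a group `A` of automorphisms of a number field that contains a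
Frobenius power and almost all of the inertia, and whose `b`-th powers lie in `Z`. -/
theorem loc (p B b f : ℕ) (hp : p.Prime) (hb : ¬ p ∣ b) (hf : 0 < f) : ∃ r : ℕ, 0 < r ∧
    ∀ (L : Type) [Field L] [NumberField L] (A Z : Subgroup (L ≃ₐ[ℚ] L)) (P : Ideal (𝓞 L)),
    P.IsMaximal → (p : 𝓞 L) ∈ P → (∀ g ∈ Z, ∀ h ∈ A, g * h = h * g) → (∀ g ∈ A, g ^ b ∈ Z) →
    (∃ σ ∈ A, ∀ x : 𝓞 L, σ • x - x ^ p ^ f ∈ P) →
    (∀ e : ℕ, (p : 𝓞 L) ∈ P ^ e →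
      e ≤ B * Nat.card {g : L ≃ₐ[ℚ] L // g ∈ A ∧ ∀ x : 𝓞 L, g • x - x ∈ P}) →
    ∃ R : Subring L, (∀ x, IsIntegral ℤ x → x ∈ R) ∧ (∀ z ∈ R, (p : L) * z ≠ 1) ∧
      ((∃ σ ∈ A, σ ∈ Z ∧ ∀ x, IsIntegral ℤ x → ∃ z ∈ R, (σ x - x ^ (p ^ f) ^ b) ^ r = p * z) ∨
       (∃ τ ∈ A, τ ∈ Z ∧ τ ≠ 1 ∧ ∀ x, IsIntegral ℤ x → ∃ z ∈ R, (τ x - x) ^ r = p * z)) := by
  have hb0 : b ≠ 0 := fun e => hb (e ▸ dvd_zero p)
  have hq : 2 ≤ p ^ f := hp.two_le.trans (Nat.le_self_pow hf.ne' p)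
  obtain ⟨r, hr, H⟩ := out3 p ((p ^ f) ^ b) B b (hq.trans (Nat.le_self_pow hb0 _)) hb
  refine ⟨r, hr, fun L _ _ A Z P hP h3 hA hZ ⟨σ, hσA, hσ⟩ hram => ?_⟩
  let := conc_alg P
  have := conc_isLoc P
  have := conc_inv P A
  have hP0 : P ≠ ⊥ := fun e => by
    rw [e, Ideal.mem_bot] at h3
    exact Nat.cast_ne_zero.2 hp.ne_zero h3
  have := IsLocalization.AtPrime.isDiscreteValuationRing_of_dedekind_domain (𝓞 L) hP0 (conc_loc P)
  obtain ⟨π, hπ⟩ := IsDiscreteValuationRing.exists_irreducible (conc_loc P)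
  have hpow : ∀ (n : ℕ) (a : 𝓞 L), π ^ n ∣ algebraMap (𝓞 L) (conc_loc P) a ↔ a ∈ P ^ n :=
    fun n a => by
      rw [conc_dvd_iff hπ, ← IsLocalization.AtPrime.under_maximalIdeal_pow P (conc_loc P) n,
        Ideal.mem_comap]
  have hone : ∀ a : 𝓞 L, π ∣ algebraMap (𝓞 L) (conc_loc P) a ↔ a ∈ P := fun a => by
    have h1 := hpow 1 a
    rwa [pow_one, pow_one] at h1
  have hπ3 : π ∣ (p : conc_loc P) := by
    have h1 := (hone p).2 h3
    rwa [map_natCast] at h1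
  have hext : ∀ (g : conc_stab P A) (q : ℕ), (∀ a : 𝓞 L, g.1 • a - a ^ q ∈ P) →
      ∀ x : conc_loc P, π ∣ g • x - x ^ q := by
    intro g q hg x
    obtain ⟨⟨a, s⟩, h⟩ := IsLocalization.surj P.primeCompl x
    obtain ⟨t, u, hu, htp⟩ := hP.exists_inv s.2
    refine conc_ext hπ g q (y := algebraMap (𝓞 L) (conc_loc P) (t * a)) ?_ ?_
    · have h1 : x - algebraMap (𝓞 L) (conc_loc P) (t * a) =
          x * algebraMap (𝓞 L) (conc_loc P) u := by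
        rw [eq_sub_of_add_eq' htp, map_sub, map_one, map_mul, map_mul, ← h]
        ring
      rw [h1]
      exact ((hone u).2 hu).mul_left x
    · have h1 := (hone _).2 (hg (t * a))
      rw [map_sub, map_pow] at h1
      exact h1
  have hst : ∀ g ∈ A, ∀ q : ℕ, q ≠ 0 → (∀ a : 𝓞 L, g • a - a ^ q ∈ P) → g ∈ conc_stab P A :=
    fun g hg q hq0 h => ⟨hg, fun a => by
      rw [← Submodule.sub_mem_iff_left _ (h a), sub_sub_cancel,
        hP.isPrime.pow_mem_iff_mem q (Nat.pos_of_ne_zero hq0)]⟩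
  have : FaithfulSMul (conc_stab P A) (conc_loc P) := ⟨fun {g h} e => by
    refine Subtype.ext (AlgEquiv.ext fun y => ?_)
    obtain ⟨a, b, -, rfl⟩ := IsFractionRing.div_surjective (𝓞 L) y
    have h1 : ∀ c : 𝓞 L, g.1 (algebraMap (𝓞 L) L c) = h.1 (algebraMap (𝓞 L) L c) :=
      fun c => congrArg Subtype.val (e ⟨_, conc_mem P c⟩)
    rw [map_div₀, map_div₀, h1, h1]⟩
  obtain ⟨σ', hσ'⟩ : ∃ σ' : conc_stab P A, σ'.1 = σ :=
    ⟨⟨σ, hst σ hσA _ (by omega) hσ⟩, rfl⟩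
  have hσ2 := hext σ' _ (hσ' ▸ hσ)
  have hres : Res p π := by
    refine ⟨hp, hπ, hπ3, f * orderOf σ', Nat.mul_pos hf (orderOf_pos σ'), fun x => ?_⟩
    have h1 := (conc_iter hσ2 (orderOf σ') x).neg_right
    rwa [pow_orderOf_eq_one, one_smul, neg_sub, ← pow_mul] at h1
  obtain ⟨e, he⟩ := IsDiscreteValuationRing.associated_pow_irreducible
    (Nat.cast_ne_zero.2 hp.ne_zero : (p : conc_loc P) ≠ 0) hπ
  have hcard : e ≤ B * Nat.card (fil (conc_stab P A) π 1) := by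
    refine (hram e ((hpow e p).1 (by rw [map_natCast]; exact he.symm.dvd))).trans
      (Nat.mul_le_mul_left B ?_)
    have h1 : ∀ g : {g : L ≃ₐ[ℚ] L // g ∈ A ∧ ∀ x : 𝓞 L, g • x - x ∈ P},
        ∀ a : 𝓞 L, g.1 • a - a ^ 1 ∈ P := fun g a => by
      rw [pow_one]
      exact g.2.2 a
    refine Nat.card_le_card_of_injective
      (fun g => ⟨⟨g.1, hst g.1 g.2.1 1 one_ne_zero (h1 g)⟩, fun x => ?_⟩) fun g h e => ?_
    · have h2 := hext ⟨g.1, hst g.1 g.2.1 1 one_ne_zero (h1 g)⟩ 1 (h1 g) x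
      rwa [pow_one, ← pow_one π] at h2
    · exact Subtype.ext (congrArg (fun u => u.1.1) e)
  refine ⟨conc_loc P, fun x hx => conc_mem P ⟨x, hx⟩, fun z hz e3 => ?_, ?_⟩
  · refine hπ.not_isUnit (isUnit_of_dvd_one (hπ3.trans ⟨⟨z, hz⟩, Subtype.ext e3.symm⟩))
  have hσ3 := conc_iter hσ2 b
  rcases H (conc_loc P) (conc_stab P A) π hres (Z.subgroupOf _)
    (fun g hg h _ => Subtype.ext (hA g.1 hg h.1 h.2.1)) (fun g => hZ g.1 g.2.1) (σ' ^ b)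
    (hZ σ'.1 σ'.2.1) hσ3 e he.symm hcard with h | ⟨τ, h0, h1, h4⟩
  · refine Or.inl ⟨(σ' ^ b).1, (σ' ^ b).2.1, hZ σ'.1 σ'.2.1, fun x hx => ?_⟩
    obtain ⟨z, hz⟩ := he.dvd.trans ((pow_dvd_pow π h).trans
      (pow_dvd_pow_of_dvd (hσ3 ⟨x, conc_mem P ⟨x, hx⟩⟩) r))
    exact ⟨z, z.2, congrArg Subtype.val hz⟩
  · refine Or.inr ⟨τ, τ.2.1, h0, fun e1 => h1 (Subtype.ext e1), fun x hx => ?_⟩
    obtain ⟨z, hz⟩ := h4 ⟨x, conc_mem P ⟨x, hx⟩⟩
    exact ⟨z, z.2, congrArg Subtype.val hz⟩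

end Pool.Agent.Lib.MP_1e748d_nt.Vb
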