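import Pool.Agent.Lib.MP_1e748d_nt.Vb.Abs

/-! Fields whose group has a subgroup of finite index with central `b`-th powers satisfy the
hypothesis at every prime number. -/

set_option autoImplicit false

namespace Pool.Agent.Lib.MP_1e748d_nt.Vb

open Polynomial NumberField Pointwise

lemma old_class {l B b : ℕ} (hl : l.Prime) (M : IntermediateField ℚ ℂ) [IsGalois ℚ M]
    (H : Subgroup (M ≃ₐ[ℚ] M)) (h0 : 0 < H.index) (hB : H.index ≤ B)
    (hH : ∀ g ∈ H, ∀ h ∈ H, g ^ b * h = h * g ^ b) :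
    ∃ K : IntermediateField ℚ M, FiniteDimensional ℚ K ∧
      Module.finrank ℚ K ≤ B ∧ IsGalois K M ∧
      ∃ (Q : Ideal (𝓞 M)) (C : Subgroup (M ≃ₐ[K] M)), Q.IsPrime ∧ (l : 𝓞 M) ∈ Q ∧
        0 < C.relIndex (MulAction.stabilizer (M ≃ₐ[K] M) Q) ∧
        C.relIndex (MulAction.stabilizer (M ≃ₐ[K] M) Q) ≤ B ∧
        ∀ g ∈ C, ∀ h, g ^ b * h = h * g ^ b := by
  have h1 : (IntermediateField.fixedField H.topologicalClosure).fixingSubgroup =
      H.topologicalClosure :=
    InfiniteGalois.fixingSubgroup_fixedField ⟨H.topologicalClosure, H.isClosed_topologicalClosure⟩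
  have h2 := IntermediateField.finrank_eq_fixingSubgroup_index M
    (IntermediateField.fixedField H.topologicalClosure)
  rw [h1] at h2
  have h3 := Subgroup.index_dvd_of_le H.le_topologicalClosure
  have hp : (Ideal.span {(l : ℤ)}).IsPrime :=
    (Ideal.span_singleton_prime (by exact_mod_cast hl.ne_zero)).2 (Nat.prime_iff_prime_int.1 hl)
  obtain ⟨Q, hQ, hQ'⟩ := Ideal.exists_ideal_over_prime_of_isIntegral_of_isDomain (S := 𝓞 M)
    (Ideal.span {(l : ℤ)}) (by
      rw [(RingHom.injective_iff_ker_eq_bot _).1 (algebraMap ℤ (𝓞 M)).injective_int]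
      exact bot_le)
  have h4 : ∀ g ∈ H.topologicalClosure, ∀ h ∈ H.topologicalClosure, g ^ b * h = h * g ^ b := by
    intro g hg h hh
    refine closure_minimal (t := {g | g ^ b * h = h * g ^ b}) (fun g hg => ?_)
      (isClosed_eq (by fun_prop) (by fun_prop)) hg
    exact closure_minimal (t := {h | g ^ b * h = h * g ^ b}) (hH g hg)
      (isClosed_eq (by fun_prop) (by fun_prop)) hh
  refine ⟨IntermediateField.fixedField H.topologicalClosure,
    FiniteDimensional.of_finrank_pos (h2 ▸ Nat.pos_of_dvd_of_pos h3 h0),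
    h2 ▸ (Nat.le_of_dvd h0 h3).trans hB, inferInstance, Q, ⊤, hQ, ?_, by simp,
    by simpa using Nat.succ_le_of_lt (h0.trans_le hB), fun g _ h => ?_⟩
  · rw [← map_natCast (algebraMap ℤ (𝓞 M)), ← Ideal.mem_comap, hQ']
    exact Ideal.mem_span_singleton_self _
  · apply AlgEquiv.restrictScalarsHom_injective ℚ
    rw [map_mul, map_mul, map_pow]
    exact h4 _ (h1.le fun x => g.commutes x) _ (h1.le fun x => h.commutes x)

end Pool.Agent.Lib.MP_1e748d_nt.Vb
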