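import Pool.Agent.Lib.MP_1e748d_nt.Vb.Ram
import Pool.Agent.Lib.MP_1e748d_nt.Va.Blk

/-! Orbits of a subgroup `N` that is normal in `A` only. -/

set_option autoImplicit false

namespace Pool.Agent.Lib.MP_1e748d_nt.Vb

open Polynomial Pool.Agent.Lib.MP_1e748d_nt.Va NumberField

section Orb

variable {L : Type} [Field L] [NumberField L] {A N : Subgroup (L ≃ₐ[ℚ] L)}

lemma rl_map (hN : ∀ a ∈ A, ∀ n ∈ N, a * n * a⁻¹ ∈ N) {y z : L} (h : Rl N y z) {g : L ≃ₐ[ℚ] L}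
    (hg : g ∈ A) : Rl N (g y) (g z) := by
  obtain ⟨n, hn, rfl⟩ := h
  exact ⟨g * n * g⁻¹, hN g hg n hn, by simp⟩

lemma orb_map2 (hN : ∀ a ∈ A, ∀ n ∈ N, a * n * a⁻¹ ∈ N) (y : L) {g : L ≃ₐ[ℚ] L} (hg : g ∈ A) :
    orb N (g y) = (orb N y).map ⟨g, g.injective⟩ := by
  ext z
  rw [Finset.mem_map, mem_orb]
  refine ⟨fun h => ⟨g⁻¹ z, mem_orb.mpr (by simpa using rl_map hN h (A.inv_mem hg)), by simp⟩, ?_⟩
  rintro ⟨w, hw, rfl⟩
  exact rl_map hN (mem_orb.mp hw) hg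

/-- A congruence on the fixed field of `N` moves to the orbits of `N`. -/
lemma blk2 {V : ValuationSubring L} (hV : ∀ x, IsIntegral ℤ x → x ∈ V) {p r k : ℕ}
    (hp : p.Prime) (hr : 0 < r) (e : ℕ) (s : L ≃ₐ[ℚ] L)
    (h : ∀ x, IsIntegral ℤ x → (∀ n ∈ N, n x = x) → Sm V p r (s x - x ^ p ^ e))
    {y : L} (hy : IsIntegral ℤ y) (hk : (orb N y).card ≤ k) :
    ∃ w, Rl N y w ∧ Sm V p (k * r) (s w - y ^ p ^ e) := by
  obtain ⟨f, hf⟩ : ∃ f : L[X], f = ∏ w ∈ orb N y, (X - C w) := ⟨_, rfl⟩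
  have hmap : ∀ g : L ≃ₐ[ℚ] L, f.map (g : L →+* L) = ∏ w ∈ orb N y, (X - C (g w)) := fun g => by
    simp [hf, Polynomial.map_prod]
  have hint : ∀ i, IsIntegral ℤ (f.coeff i) := fun i => by
    have h1 : f ∈ lifts (integralClosure ℤ L).val.toRingHom := by
      rw [hf]
      refine Subsemiring.prod_mem _ fun w hw => ?_
      exact ⟨X - C ⟨w, (mem_orb.mp hw).int hy⟩, by simp⟩
    obtain ⟨a, ha⟩ := (lifts_iff_coeff_lifts f).mp h1 i
    exact ha ▸ a.2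
  have hfix : ∀ i, ∀ n ∈ N, n (f.coeff i) = f.coeff i := fun i n hn => by
    have h1 := hmap n
    have h2 := Finset.prod_map (orb N y) ⟨n, n.injective⟩ fun w => X - C w
    rw [← orb_map2 (A := N) (fun a ha m hm => N.mul_mem (N.mul_mem ha hm) (N.inv_mem ha)) y hn,
      orb_eq ⟨n, hn, rfl⟩, ← hf] at h2
    have h3 := congrArg (coeff · i) (h1.trans h2.symm)
    simpa using h3
  have hy' := hV y hy
  have h0 : ∑ i ∈ Finset.range (f.natDegree + 1), f.coeff i * y ^ i = 0 := by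
    rw [← eval_eq_sum_range, hf, eval_prod]
    exact Finset.prod_eq_zero (mem_orb.mpr (Rl.refl y)) (by simp)
  have h1 := (sm_frob (V := V) hp hr e (Finset.range (f.natDegree + 1))
    (fun i => f.coeff i * y ^ i) fun i => mul_mem (hV _ (hint i)) (pow_mem hy' i)).neg
  have h2 := sm_sum hr (Finset.range (f.natDegree + 1)) _ fun i _ =>
    (h _ (hint i) (hfix i)).mul (pow_mem (pow_mem hy' (p ^ e)) i)
  have h3 : Sm V p r (∏ w ∈ orb N y, (y ^ p ^ e - s w)) := by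
    convert h2.add h1 using 1
    have h4 := congrArg (eval (y ^ p ^ e)) (hmap s)
    rw [eval_prod, eval_map, eval₂_eq_sum_range] at h4
    rw [h0, zero_pow (pow_ne_zero e hp.ne_zero), zero_sub, neg_neg, ← Finset.sum_add_distrib]
    simp only [eval_sub, eval_X, eval_C] at h4
    rw [← h4]
    refine Finset.sum_congr rfl fun i _ => ?_
    rw [mul_pow, pow_right_comm]
    simp [sub_mul]
  obtain ⟨w, hw, h5⟩ := sm_prod ⟨y, mem_orb.mpr (Rl.refl y)⟩ hk _ (fun w hw => sub_mem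
    (pow_mem hy' _) (hV _ (map_isIntegral_int (s : L →+* L) ((mem_orb.mp hw).int hy)))) h3
  exact ⟨w, mem_orb.mp hw, by simpa using h5.neg⟩

end Orb

/-- The local alternative relative to a subgroup with orbits of bounded size. -/
theorem loc_rel (p B b k : ℕ) (hp : p.Prime) (hb : ¬ p ∣ b) : ∃ r q : ℕ, 2 ≤ q ∧
    ∀ (L : Type) [Field L] [NumberField L] [IsGalois ℚ L] (A N C : Subgroup (L ≃ₐ[ℚ] L))
    (Q : Ideal (𝓞 L)), Dat p B b A N C Q →
    ∃ V : ValuationSubring L, (∀ x, IsIntegral ℤ x → x ∈ V) ∧ (∀ z ∈ V, (p : L) * z ≠ 1) ∧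
      ((∃ σ ∈ A, (∀ h ∈ A, (σ * h)⁻¹ * (h * σ) ∈ N) ∧ ∀ y, IsIntegral ℤ y →
          (orb N y).card ≤ k → ∃ w, Rl N y w ∧ Sm V p r (σ w - y ^ q)) ∨
       (∃ τ ∈ A, (∀ h ∈ A, (τ * h)⁻¹ * (h * τ) ∈ N) ∧ τ ∉ N ∧ ∀ y, IsIntegral ℤ y →
          (orb N y).card ≤ k → ∃ w, Rl N y w ∧ Sm V p r (τ w - y))) := by
  obtain ⟨r, e, hr, he, H⟩ := loc_fix p B b hp hb
  refine ⟨k * r, p ^ e, hp.two_le.trans (Nat.le_self_pow he.ne' p), fun L _ _ _ A N C Q h => ?_⟩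
  let M := IntermediateField.fixedField N
  obtain ⟨R, h3, hout⟩ := H L A N C Q h
  have hp0 : (p : L) ≠ 0 := Nat.cast_ne_zero.mpr hp.ne_zero
  obtain ⟨V, hV1, hV2⟩ := Ideal.image_subset_nonunits_valuationSubring
    (A := R.map (algebraMap M L)) (Ideal.span {(p : R.map (algebraMap M L))}) (by
      rw [Ne, Ideal.span_singleton_eq_top, isUnit_iff_exists_inv]
      rintro ⟨⟨_, z, hz, rfl⟩, h⟩
      refine h3 z hz ((algebraMap M L).injective ?_)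
      simpa using congrArg Subtype.val h)
  have hpV : V.valuation p < 1 :=
    V.mem_nonunits_iff.mp (hV2 ⟨p, Ideal.mem_span_singleton_self _, by simp⟩)
  have hV : ∀ x, IsIntegral ℤ x → x ∈ V := fun x hx => by
    obtain ⟨y, rfl⟩ := IsIntegrallyClosed.isIntegral_iff.mp (hx.tower_top (A := V))
    exact y.2
  have key : ∀ (s : L ≃ₐ[ℚ] L) (n : ℕ),
      (∀ x : M, IsIntegral ℤ x → ∃ z ∈ R, (s x - x ^ n : L) ^ r = p * z) →
      ∀ x, IsIntegral ℤ x → (∀ n ∈ N, n x = x) → Sm V p r (s x - x ^ n) := by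
    intro s n h x hx hfix
    obtain ⟨z, hz, e⟩ := h ⟨x, fun g => hfix g.1 g.2⟩
      ((isIntegral_algHom_iff (algebraMap M L).toIntAlgHom (algebraMap M L).injective).mp hx)
    exact (sm_iff hp0).mpr ⟨z, hV1 ⟨z, hz, rfl⟩, e⟩
  refine ⟨V, hV, fun z hz e => ?_, hout.imp ?_ ?_⟩
  · have h1 := congrArg V.valuation e
    rw [map_mul, map_one] at h1
    exact (mul_lt_one_of_lt_of_le hpV ((V.valuation_le_one_iff z).mpr hz)).ne h1
  · rintro ⟨σ, h0, h1, h2⟩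
    exact ⟨σ, h0, h1, fun y hy hk => blk2 hV hp hr e σ (key σ _ h2) hy hk⟩
  · rintro ⟨τ, h0, h1, h2, h4⟩
    refine ⟨τ, h0, h1, h2, fun y hy hk => ?_⟩
    simpa using blk2 hV hp hr 0 τ (key τ _ (by simpa only [pow_zero, pow_one] using h4)) hy hk

end Pool.Agent.Lib.MP_1e748d_nt.Vb
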