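import Pool.Agent.Lib.MP_1e748d_nt.Vb.Loc

/-! Frobenius and ramification at a given prime, and passage to the fixed field of `N`. -/

set_option autoImplicit false

namespace Pool.Agent.Lib.MP_1e748d_nt.Vb

open Polynomial Pool.Agent.Lib.MP_1e748d_nt.Va NumberField Pointwise

variable {L : Type} [Field L] [NumberField L]

/-- The data at finite level: `N` is normal in `A`, the `b`-th powers of `C` are central in `A`
modulo `N`, and `C` has bounded index in the decomposition group of `Q`. -/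
structure Dat (p B b : ℕ) (A N C : Subgroup (L ≃ₐ[ℚ] L)) (Q : Ideal (𝓞 L)) : Prop where
  max : Q.IsMaximal
  mem : (p : 𝓞 L) ∈ Q
  idx : A.index ≤ B
  le : N ≤ A
  nor : ∀ a ∈ A, ∀ n ∈ N, a * n * a⁻¹ ∈ N
  cle : C ≤ A
  rel : C.relIndex (MulAction.stabilizer (L ≃ₐ[ℚ] L) Q) ≤ B
  com : ∀ g ∈ C, ∀ h ∈ A, (g ^ b * h)⁻¹ * (h * g ^ b) ∈ N

lemma mem_stab {G S : Type} [Group G] [CommRing S] [MulSemiringAction G S] {P : Ideal S} {g : G} :
    g ∈ MulAction.stabilizer G P ↔ ∀ a, g • a ∈ P ↔ a ∈ P := by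
  rw [← inv_mem_iff, MulAction.mem_stabilizer_iff, Ideal.ext_iff]
  simp only [Ideal.mem_pointwise_smul_iff_inv_smul_mem, inv_inv]

lemma frob2 [IsGalois ℚ L] {p : ℕ} (hp : p.Prime) {P : Ideal (𝓞 L)} (hP : P.IsMaximal)
    (h3 : (p : 𝓞 L) ∈ P) : (∃ φ : L ≃ₐ[ℚ] L, ∀ x : 𝓞 L, φ • x - x ^ p ∈ P) ∧
      ∀ e : ℕ, (p : 𝓞 L) ∈ P ^ e → e ≤ Nat.card (P.inertia (L ≃ₐ[ℚ] L)) := by
  have : Fact p.Prime := ⟨hp⟩
  have : NeZero p := ⟨hp.ne_zero⟩
  have hm : (Ideal.span {(p : ℤ)}).IsMaximal := Int.ideal_span_isMaximal_of_prime p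
  have hPp : P.LiesOver (Ideal.span {(p : ℤ)}) := ⟨hm.eq_of_le (Ideal.comap_ne_top _ hP.ne_top) (by
    rw [Ideal.span_singleton_le_iff_mem, Ideal.mem_comap, map_natCast]
    exact h3)⟩
  have hmap : (Ideal.span {(p : ℤ)}).map (algebraMap ℤ (𝓞 L)) = Ideal.span {(p : 𝓞 L)} := by
    rw [Ideal.map_span, Set.image_singleton]
    simp
  have hne : (Ideal.span {(p : ℤ)}).map (algebraMap ℤ (𝓞 L)) ≠ ⊥ := by
    rw [hmap, Ne, Ideal.span_singleton_eq_bot]
    exact Nat.cast_ne_zero.2 hp.ne_zero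
  refine ⟨?_, fun e he => ?_⟩
  · obtain ⟨φ, hφ⟩ := IsArithFrobAt.exists_of_isInvariant ℤ (L ≃ₐ[ℚ] L) P
    have hc : Nat.card (ℤ ⧸ P.under ℤ) = p := by
      rw [← P.over_def (Ideal.span {(p : ℤ)})]
      exact Int.card_ideal_quot p
    refine ⟨φ, fun x => ?_⟩
    have h := hφ x
    rw [hc] at h
    exact h
  · have h1 : Nat.card (P.inertia (L ≃ₐ[ℚ] L)) =
        multiplicity P ((Ideal.span {(p : ℤ)}).map (algebraMap ℤ (𝓞 L))) := by
      rw [Ideal.card_inertia_eq_ramificationIdxIn (Ideal.span {(p : ℤ)}) P,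
        Ideal.ramificationIdxIn_eq_ramificationIdx _ P (L ≃ₐ[ℚ] L),
        Ideal.IsDedekindDomain.ramificationIdx_eq_multiplicity _ P hne]
    have hfin : FiniteMultiplicity P ((Ideal.span {(p : ℤ)}).map (algebraMap ℤ (𝓞 L))) :=
      FiniteMultiplicity.of_not_isUnit (by
        rw [Ideal.isUnit_iff]
        exact hP.ne_top) hne
    rw [h1, ← hfin.pow_dvd_iff_le_multiplicity, Ideal.dvd_iff_le, hmap,
      Ideal.span_singleton_le_iff_mem]
    exact he

/-- The ramification index over the fixed field of `N` is the order of the inertia group. -/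
lemma ram_rel [IsGalois ℚ L] (N : Subgroup (L ≃ₐ[ℚ] L)) {Q : Ideal (𝓞 L)} (hQ : Q.IsMaximal) :
    (Q.under (𝓞 (IntermediateField.fixedField N))).map (algebraMap _ (𝓞 L)) ≤
      Q ^ Nat.card (Q.inertia N) := by
  have : IsGaloisGroup N (IntermediateField.fixedField N) L := IsGaloisGroup.subgroup _ ℚ L N
  have : IsGaloisGroup N (𝓞 (IntermediateField.fixedField N)) (𝓞 L) :=
    IsGaloisGroup.of_isFractionRing N _ _ (IntermediateField.fixedField N) L
  set P := Q.under (𝓞 (IntermediateField.fixedField N))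
  by_cases hne : P.map (algebraMap _ (𝓞 L)) = ⊥
  · rw [hne]
    exact bot_le
  have hP : P.IsMaximal := Ideal.IsMaximal.under _ Q
  have hP0 : P ≠ ⊥ := fun e => hne (by rw [e, Ideal.map_bot])
  have : Finite (𝓞 (IntermediateField.fixedField N) ⧸ P) := Ideal.finiteQuotientOfFreeOfNeBot P hP0
  rw [Ideal.card_inertia_eq_ramificationIdxIn P Q, Ideal.ramificationIdxIn_eq_ramificationIdx _ Q N,
    Ideal.IsDedekindDomain.ramificationIdx_eq_multiplicity P Q hne, ← Ideal.dvd_iff_le]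
  exact pow_multiplicity_dvd _ _

/-- Restriction to the fixed field of a subgroup `N` normalised by `A`. -/
lemma exists_res {A N : Subgroup (L ≃ₐ[ℚ] L)} (hN : ∀ a ∈ A, ∀ n ∈ N, a * n * a⁻¹ ∈ N) :
    ∃ res : A →* (IntermediateField.fixedField N ≃ₐ[ℚ] IntermediateField.fixedField N),
      ∀ (g : A) (x : IntermediateField.fixedField N), (res g x : L) = g.1 x := by
  have hm : ∀ (g : A) (x : IntermediateField.fixedField N),
      g.1 x ∈ IntermediateField.fixedField N := fun g x n => by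
    have h1 := x.2 ⟨_, hN _ (A.inv_mem g.2) n n.2⟩
    have h2 := congrArg g.1 h1
    simpa [Subgroup.smul_def] using h2
  let : MulSemiringAction A (IntermediateField.fixedField N) :=
    { smul := fun g x => ⟨g.1 x, hm g x⟩
      one_smul := fun _ => rfl
      mul_smul := fun _ _ _ => rfl
      smul_zero := fun g => Subtype.ext (map_zero g.1)
      smul_add := fun g x y => Subtype.ext (map_add g.1 x.1 y.1)
      smul_one := fun g => Subtype.ext (map_one g.1)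
      smul_mul := fun g x y => Subtype.ext (map_mul g.1 x.1 y.1) }
  have : SMulCommClass A ℚ (IntermediateField.fixedField N) :=
    ⟨fun g a x => Subtype.ext (map_rat_smul g.1 a x.1)⟩
  exact ⟨MulSemiringAction.toAlgAut A ℚ _, fun _ _ => rfl⟩

/-- The local alternative on the fixed field of `N`. -/
theorem loc_fix (p B b : ℕ) (hp : p.Prime) (hb : ¬ p ∣ b) : ∃ r f : ℕ, 0 < r ∧ 0 < f ∧
    ∀ (L : Type) [Field L] [NumberField L] [IsGalois ℚ L] (A N C : Subgroup (L ≃ₐ[ℚ] L))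
    (Q : Ideal (𝓞 L)), Dat p B b A N C Q →
    ∃ R : Subring (IntermediateField.fixedField N), (∀ z ∈ R, p * z ≠ 1) ∧
      ((∃ σ ∈ A, (∀ h ∈ A, (σ * h)⁻¹ * (h * σ) ∈ N) ∧
        ∀ x : IntermediateField.fixedField N, IsIntegral ℤ x →
          ∃ z ∈ R, (σ x - x ^ p ^ f : L) ^ r = p * z) ∨
       (∃ τ ∈ A, (∀ h ∈ A, (τ * h)⁻¹ * (h * τ) ∈ N) ∧ τ ∉ N ∧
        ∀ x : IntermediateField.fixedField N, IsIntegral ℤ x →
          ∃ z ∈ R, (τ x - x : L) ^ r = p * z)) := by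
  obtain ⟨r, hr, H⟩ := loc p B b B.factorial hp hb B.factorial_pos
  refine ⟨r, B.factorial * b, hr, Nat.mul_pos B.factorial_pos
    (Nat.pos_of_ne_zero fun e => hb (e ▸ dvd_zero p)), fun L _ _ _ A N C Q h => ?_⟩
  let M := IntermediateField.fixedField N
  obtain ⟨res, hres⟩ : ∃ res : A →* (M ≃ₐ[ℚ] M), ∀ (g : A) (x : M), (res g x : L) = g.1 x :=
    exists_res h.nor
  have hQ := h.max
  have hker : ∀ g, res g = 1 ↔ g.1 ∈ N := fun g => by
    rw [← IntermediateField.fixingSubgroup_fixedField N, IntermediateField.mem_fixingSubgroup_iff,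
      AlgEquiv.ext_iff]
    refine ⟨fun h x hx => ?_, fun h x => Subtype.ext ?_⟩
    · exact (hres g ⟨x, hx⟩).symm.trans (congrArg Subtype.val (h ⟨x, hx⟩))
    · exact (hres g x).trans (h x x.2)
  have hcom : ∀ g g' : A, res g' * res g = res g * res g' ↔ (g.1 * g')⁻¹ * (g' * g) ∈ N :=
    fun g g' => by
      rw [← map_mul, ← map_mul, eq_comm, ← inv_mul_eq_one, ← map_inv, ← map_mul, hker]
      rfl
  have hsm : ∀ (g : A) (x : 𝓞 M), algebraMap (𝓞 M) (𝓞 L) (res g • x) =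
      g.1 • algebraMap (𝓞 M) (𝓞 L) x := fun g x => RingOfIntegers.ext (hres g x)
  obtain ⟨⟨φ, hφ⟩, hram⟩ := frob2 hp hQ h.mem
  have hφ1 : φ ∈ MulAction.stabilizer (L ≃ₐ[ℚ] L) Q := mem_stab.2 fun a => by
    rw [← Submodule.sub_mem_iff_left _ (hφ a), sub_sub_cancel,
      hQ.isPrime.pow_mem_iff_mem p hp.pos]
  have hφ2 : φ ^ B.factorial ∈ C :=
    Subgroup.pow_mem_of_index_ne_zero_of_dvd
      (C.subgroupOf (MulAction.stabilizer (L ≃ₐ[ℚ] L) Q)).index_ne_zero_of_finite ⟨φ, hφ1⟩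
      fun m h1 h2 => Nat.dvd_factorial h1 (h2.trans h.rel)
  obtain ⟨R, -, h3, hout⟩ := H M ((C.subgroupOf A).map res) (Subgroup.centralizer res.range)
    (Q.under (𝓞 M)) (Ideal.IsMaximal.under _ Q)
    (by rw [Ideal.mem_comap, map_natCast]; exact h.mem) (by
      rintro g hg _ ⟨g', -, rfl⟩
      exact (hg _ ⟨g', rfl⟩).symm) (by
      rintro _ ⟨g, hg, rfl⟩ _ ⟨g', rfl⟩
      rw [← map_pow]
      exact (hcom _ _).2 (h.com g hg g' g'.2))
    ⟨_, ⟨⟨_, h.cle hφ2⟩, hφ2, rfl⟩, fun x => by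
      rw [Ideal.mem_comap, map_sub, map_pow, hsm]
      exact frob_pow hφ _ _⟩ (fun e he => by
      have h1 : (p : 𝓞 L) ∈ Q ^ (Nat.card (Q.inertia N) * e) := by
        have h2 := Ideal.mem_map_of_mem (algebraMap (𝓞 M) (𝓞 L)) he
        rw [Ideal.map_pow, map_natCast] at h2
        rw [pow_mul]
        exact Ideal.pow_right_mono (ram_rel N hQ) e h2
      have h2 := hram _ h1
      set I := Q.inertia (L ≃ₐ[ℚ] L)
      have h4 : C.relIndex I ≤ B := (Subgroup.relIndex_le_of_le_right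
        (Ideal.inertia_le_stabilizer Q) (Subgroup.index_ne_zero_of_finite)).trans h.rel
      have h5 := (C.subgroupOf I).index_mul_card
      let ρ := res.comp ((I.subtype.comp (C.subgroupOf I).subtype).codRestrict A
        fun g => h.cle g.2)
      have h6 := ρ.ker.index_mul_card
      rw [Subgroup.index_ker] at h6
      have h7 : Nat.card ρ.ker ≤ Nat.card (Q.inertia N) :=
        Nat.card_le_card_of_injective (fun g => ⟨⟨g.1.1.1, (hker _).1 g.2⟩, g.1.1.2⟩)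
          fun g g' e => Subtype.ext (Subtype.ext (Subtype.ext (congrArg (fun u => u.1.1) e)))
      have h8 : Nat.card ρ.range ≤ Nat.card {g : M ≃ₐ[ℚ] M // g ∈ (C.subgroupOf A).map res ∧
          ∀ x : 𝓞 M, g • x - x ∈ Q.under (𝓞 M)} :=
        Nat.card_le_card_of_injective (fun g => ⟨g.1, by
          obtain ⟨_, g, rfl⟩ := g
          refine ⟨⟨_, g.2, rfl⟩, fun x => ?_⟩
          rw [Ideal.mem_comap, map_sub]
          exact (hsm _ x).symm ▸ g.1.2 _⟩)
          fun g g' e => Subtype.ext (congrArg (fun u => u.1) e)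
      refine Nat.le_of_mul_le_mul_left (h2.trans ?_) (Nat.card_pos (α := Q.inertia N))
      rw [← h5, ← h6, mul_comm (Nat.card (Q.inertia N)), mul_assoc]
      exact Nat.mul_le_mul h4 (Nat.mul_le_mul h8 h7))
  refine ⟨R, h3, hout.imp ?_ ?_⟩
  · rintro ⟨_, ⟨σ, -, rfl⟩, hσ, h1⟩
    refine ⟨σ, σ.2, fun g hg => (hcom σ ⟨g, hg⟩).1 (hσ _ ⟨_, rfl⟩),
      fun x hx => (h1 x hx).imp fun z hz => ⟨hz.1, ?_⟩⟩
    simpa [hres, pow_mul] using congrArg Subtype.val hz.2
  · rintro ⟨_, ⟨τ, -, rfl⟩, hτ, h0, h1⟩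
    refine ⟨τ, τ.2, fun g hg => (hcom τ ⟨g, hg⟩).1 (hτ _ ⟨_, rfl⟩), mt (hker τ).2 h0,
      fun x hx => (h1 x hx).imp fun z hz => ⟨hz.1, ?_⟩⟩
    simpa [hres] using congrArg Subtype.val hz.2

end Pool.Agent.Lib.MP_1e748d_nt.Vb
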